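import Mathlib
import Pool.Agent.H925R3.DD.Stubs

namespace Pool.Agent.H785R9

open Finset Pool.Agent.H925R3.DC Pool.Agent.H925R3.DD

theorem crdw : Pool.Agent.H925R3.DD.CRDW := by
  intro n hn
  rw [Fintype.card_coe]
  unfold monSetW
  rw [Finset.card_filter, Finset.sum_product]
  have h1 : ∀ i ∈ range (n+1), ∑ y ∈ range 2, (if 2 * (i, y).1 + 3 * (i, y).2 ≤ n then 1 else 0)
      = (if 2 * i ≤ n then 1 else 0) + (if 2 * i + 3 ≤ n then 1 else 0) := by
    intro i _
    rw [Finset.sum_range_succ, Finset.sum_range_succ, Finset.sum_range_zero]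
    simp
  rw [Finset.sum_congr rfl h1, Finset.sum_add_distrib, ← Finset.card_filter, ← Finset.card_filter]
  have h2 : (range (n+1)).filter (fun i => 2 * i ≤ n) = range (n/2+1) := by
    ext i; simp only [mem_filter, mem_range]; omega
  have h3 : (range (n+1)).filter (fun i => 2 * i + 3 ≤ n) = range ((n-1)/2) := by
    ext i; simp only [mem_filter, mem_range]; omega
  rw [h2, h3, card_range, card_range]
  omega

end Pool.Agent.H785R9
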